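import Pool.Agent.H14.AVS.S5
import Mathlib.LinearAlgebra.Matrix.Polynomial

set_option autoImplicit false

namespace Pool.AVS

open Polynomial Matrix Pool.AVR

namespace TB7

section Ring

variable {R : Type} [CommRing R]

/-- The companion matrix. -/
def CC (m0 m1 m2 : R) : Matrix (Fin 3) (Fin 3) R := !![0, 1, 0; 0, 0, 1; -m0, -m1, -m2]

theorem det_id (al be ga de et : R) :
    (CC (4 * al ^ 2 * ((2 * ga * de - 2 * et * be + ga ^ 2) * (be ^ 2 - al * de) -
        al * (-al * et ^ 2 + 2 * be * et * ga - de * ga ^ 2)))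
      (4 * al * (-(2 * ga + de)) * (be ^ 2 - al * de))
      (3 * (be ^ 2 - al * de) + al * (-(2 * ga + de))) + (2 * (be ^ 2 - al * de)) • (1 : Matrix (Fin 3) (Fin 3) R)).det =
      -4 * (al ^ 2 * et + be * (al * de - be ^ 2 - al * ga)) ^ 2 := by
  rw [CC, Matrix.det_fin_three]
  simp
  ring

/-- The eigenvector. -/
def vv (y : R) : Fin 3 → R := ![1, y, y ^ 2]

theorem CC_vv (m0 m1 m2 y : R) (h : y ^ 3 + m2 * y ^ 2 + m1 * y + m0 = 0) :
    CC m0 m1 m2 *ᵥ vv y = y • vv y := by
  funext i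
  fin_cases i
  · simp [CC, vv, Matrix.mulVec, dotProduct, Fin.sum_univ_three]
  · simp [CC, vv, Matrix.mulVec, dotProduct, Fin.sum_univ_three]
    ring
  · simp [CC, vv, Matrix.mulVec, dotProduct, Fin.sum_univ_three]
    linear_combination (-1 : R) * h

theorem pow_vv (M : Matrix (Fin 3) (Fin 3) R) (y : R) (v : Fin 3 → R) (h : M *ᵥ v = y • v)
    (n : ℕ) : (M ^ n) *ᵥ v = y ^ n • v := by
  induction n with
  | zero => simp
  | succ n ih => rw [pow_succ', ← Matrix.mulVec_mulVec, ih, Matrix.mulVec_smul, h, smul_smul,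
      pow_succ]

/-- The matrix of a quartic polynomial. -/
def QQ (e : Fin 5 → R) (M : Matrix (Fin 3) (Fin 3) R) : Matrix (Fin 3) (Fin 3) R :=
  ∑ j : Fin 5, e j • M ^ (j : ℕ)

theorem QQ_vv (e : Fin 5 → R) (M : Matrix (Fin 3) (Fin 3) R) (y : R) (v : Fin 3 → R)
    (h : M *ᵥ v = y • v) : QQ e M *ᵥ v = (∑ j : Fin 5, e j * y ^ (j : ℕ)) • v := by
  rw [QQ, Matrix.sum_mulVec, Finset.sum_smul]
  refine Finset.sum_congr rfl fun j _ => ?_
  rw [Matrix.smul_mulVec, pow_vv M y v h, smul_smul]

theorem det_zero (M : Matrix (Fin 3) (Fin 3) R) (y : R) (h : M *ᵥ vv y = 0) : M.det = 0 := by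
  have h1 : (M.adjugate * M) *ᵥ vv y = 0 := by
    rw [← Matrix.mulVec_mulVec, h, Matrix.mulVec_zero]
  rw [Matrix.adjugate_mul, Matrix.smul_mulVec, Matrix.one_mulVec] at h1
  have h2 := congrFun h1 0
  simpa [vv] using h2

/-- The first matrix. -/
def XX (al v a b c al' v' a' b' c' : R) : Matrix (Fin 3) (Fin 3) R :=
  QQ ![(2 * al) ^ 4 * (c' * v - c * v'), (2 * al) ^ 3 * (b' * v + c' * al - b * v' - c * al'),
      (2 * al) ^ 2 * (a' * v + b' * al - a * v' - b * al'), (2 * al) * (a' * al - v' - a * al'),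
      -al']
    (CC (4 * al ^ 2 * (b * v - al * c)) (4 * al * a * v) (3 * v + al * a))

/-- The second matrix. -/
def YY (al v a b c : R) : Matrix (Fin 3) (Fin 3) R :=
  (2 * al ^ 2) ^ 2 • ((CC (4 * al ^ 2 * (b * v - al * c)) (4 * al * a * v) (3 * v + al * a) +
      (2 * v) • (1 : Matrix (Fin 3) (Fin 3) R)) *
    (CC (4 * al ^ 2 * (b * v - al * c)) (4 * al * a * v) (3 * v + al * a) +
      (2 * v) • (1 : Matrix (Fin 3) (Fin 3) R)))

theorem key (al v a b c al' v' a' b' c' z ζ s : R)
    (h1 : s ^ 3 + a * s ^ 2 + (b - z * al) * s + (c - z * v) = 0)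
    (h2 : 3 * s ^ 2 + 2 * a * s + (b - z * al) = 0)
    (h3 : a' * s ^ 2 + (b' - ζ * al - z * al') * s + (c' - ζ * v - z * v') = 0) :
    (XX al v a b c al' v' a' b' c' - ζ • YY al v a b c).det = 0 := by
  have hC : CC (4 * al ^ 2 * (b * v - al * c)) (4 * al * a * v) (3 * v + al * a) *ᵥ
      vv (2 * al * s) = (2 * al * s) • vv (2 * al * s) := by
    apply CC_vv
    linear_combination (4 * al ^ 2 * (al * s + v)) * h2 - (4 * al ^ 3) * h1
  have hC2 : (CC (4 * al ^ 2 * (b * v - al * c)) (4 * al * a * v) (3 * v + al * a) +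
      (2 * v) • (1 : Matrix (Fin 3) (Fin 3) R)) *ᵥ vv (2 * al * s) =
      (2 * al * s + 2 * v) • vv (2 * al * s) := by
    rw [Matrix.add_mulVec, hC, Matrix.smul_mulVec, Matrix.one_mulVec, add_smul]
  apply det_zero _ (2 * al * s)
  rw [Matrix.sub_mulVec, XX, QQ_vv _ _ _ _ hC, YY, Matrix.smul_mulVec, Matrix.smul_mulVec,
    ← Matrix.mulVec_mulVec, hC2, Matrix.mulVec_smul, hC2, smul_smul, smul_smul, smul_smul,
    ← sub_smul]
  have : (∑ j : Fin 5, (![(2 * al) ^ 4 * (c' * v - c * v'),
      (2 * al) ^ 3 * (b' * v + c' * al - b * v' - c * al'),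
      (2 * al) ^ 2 * (a' * v + b' * al - a * v' - b * al'), (2 * al) * (a' * al - v' - a * al'),
      -al'] : Fin 5 → R) j * (2 * al * s) ^ (j : ℕ)) -
      ζ * (2 * al ^ 2) ^ 2 * ((2 * al * s + 2 * v) * (2 * al * s + 2 * v)) = 0 := by
    simp [Fin.sum_univ_succ]
    linear_combination (16 * al ^ 4 * (al * s + v)) * h3 - (16 * al ^ 4 * (al' * s + v')) * h1
  rw [← mul_assoc] at *
  rw [this, zero_smul]

end Ring

section Maps

variable {R S : Type} [CommRing R] [CommRing S] (φ : R →+* S)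

theorem QQ_map (e : Fin 5 → R) (M : Matrix (Fin 3) (Fin 3) R) :
    (QQ e M).map φ = QQ (fun j => φ (e j)) (M.map φ) := by
  have h : φ.mapMatrix (QQ e M) = QQ (fun j => φ (e j)) (φ.mapMatrix M) := by
    rw [QQ, QQ, map_sum]
    refine Finset.sum_congr rfl fun j _ => ?_
    rw [RingHom.mapMatrix_apply, Matrix.map_smul' _ _ _ (map_mul φ), ← RingHom.mapMatrix_apply,
      map_pow]
  exact h

theorem CC_map (m0 m1 m2 : R) : (CC m0 m1 m2).map φ = CC (φ m0) (φ m1) (φ m2) := by
  ext i j
  fin_cases i <;> fin_cases j <;> simp [CC]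

theorem XX_map (al v a b c al' v' a' b' c' : R) :
    (XX al v a b c al' v' a' b' c').map φ =
      XX (φ al) (φ v) (φ a) (φ b) (φ c) (φ al') (φ v') (φ a') (φ b') (φ c') := by
  have e2 : φ 2 = 2 := map_ofNat φ 2
  have e3 : φ 3 = 3 := map_ofNat φ 3
  have e4 : φ 4 = 4 := map_ofNat φ 4
  rw [XX, XX, QQ_map, CC_map]
  congr 1
  · funext j
    fin_cases j <;> simp [e2]
  · simp [e3, e4]

theorem YY_map (al v a b c : R) :
    (YY al v a b c).map φ = YY (φ al) (φ v) (φ a) (φ b) (φ c) := by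
  have e2 : φ 2 = 2 := map_ofNat φ 2
  have e3 : φ 3 = 3 := map_ofNat φ 3
  have e4 : φ 4 = 4 := map_ofNat φ 4
  have h : φ.mapMatrix (CC (4 * al ^ 2 * (b * v - al * c)) (4 * al * a * v) (3 * v + al * a) +
      (2 * v) • (1 : Matrix (Fin 3) (Fin 3) R)) =
      CC (4 * (φ al) ^ 2 * (φ b * φ v - φ al * φ c)) (4 * φ al * φ a * φ v)
        (3 * φ v + φ al * φ a) + (2 * φ v) • (1 : Matrix (Fin 3) (Fin 3) S) := by
    rw [map_add, RingHom.mapMatrix_apply, RingHom.mapMatrix_apply, CC_map,
      Matrix.map_smul' _ _ _ (map_mul φ), Matrix.map_one _ (map_zero φ) (map_one φ)]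
    simp [e2, e3, e4]
  rw [YY, YY, Matrix.map_smul' _ _ _ (map_mul φ), ← RingHom.mapMatrix_apply, map_mul, h]
  simp [e2]

theorem key_map (al v a b c al' v' a' b' c' z ζ s : R)
    (h1 : φ (s ^ 3 + a * s ^ 2 + (b - z * al) * s + (c - z * v)) = 0)
    (h2 : φ (3 * s ^ 2 + 2 * a * s + (b - z * al)) = 0)
    (h3 : φ (a' * s ^ 2 + (b' - ζ * al - z * al') * s + (c' - ζ * v - z * v')) = 0) :
    φ (XX al v a b c al' v' a' b' c' - ζ • YY al v a b c).det = 0 := by
  rw [RingHom.map_det, map_sub, RingHom.mapMatrix_apply, RingHom.mapMatrix_apply, XX_map,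
    Matrix.map_smul' _ _ _ (map_mul φ), YY_map]
  have e2 : φ 2 = 2 := map_ofNat φ 2
  have e3 : φ 3 = 3 := map_ofNat φ 3
  apply key _ _ _ _ _ _ _ _ _ _ (φ z) _ (φ s)
  · simpa using h1
  · simpa [e2, e3] using h2
  · simpa using h3

end Maps

section Roots

variable {F : Type} [Field F]

theorem roots3 (X0 Y : Matrix (Fin 3) (Fin 3) F[X]) (hY : Y.det ≠ 0) :
    {ζ : F[X] | (X0 - ζ • Y).det = 0}.Finite ∧ {ζ : F[X] | (X0 - ζ • Y).det = 0}.ncard ≤ 3 := by
  classical
  set p : F[X][X] := det ((X : F[X][X]) • (-Y).map C + X0.map C) with hp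
  have h3 : p.coeff 3 = (-Y).det := by
    have := coeff_det_X_add_C_card (-Y) X0
    simpa using this
  have hd : p.natDegree ≤ 3 := by
    have := natDegree_det_X_add_C_le (-Y) X0
    simpa using this
  have hne : p ≠ 0 := by
    intro h0
    rw [h0, coeff_zero, Matrix.det_neg] at h3
    apply hY
    simpa using h3.symm
  have hev : ∀ ζ : F[X], p.eval ζ = (X0 - ζ • Y).det := by
    intro ζ
    rw [hp, ← coe_evalRingHom, RingHom.map_det]
    congr 1
    ext i j
    simp
    ring
  have hsub : {ζ : F[X] | (X0 - ζ • Y).det = 0} ⊆ (p.roots.toFinset : Set F[X]) := by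
    intro ζ hζ
    rw [Set.mem_ofPred_eq, ← hev] at hζ
    simp only [Finset.mem_coe, Multiset.mem_toFinset]
    rw [mem_roots hne]
    exact hζ
  refine ⟨(Finset.finite_toSet _).subset hsub, ?_⟩
  calc {ζ : F[X] | (X0 - ζ • Y).det = 0}.ncard ≤ (p.roots.toFinset : Set F[X]).ncard :=
        Set.ncard_le_ncard hsub (Finset.finite_toSet _)
    _ = p.roots.toFinset.card := Set.ncard_coe_finset _
    _ ≤ p.roots.card := Multiset.toFinset_card_le _
    _ ≤ p.natDegree := p.card_roots'
    _ ≤ 3 := hd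

end Roots

section Degrees

variable {F : Type} [Field F]

theorem dadd {p q : F[X]} {k : ℕ} (hp : p.natDegree ≤ k) (hq : q.natDegree ≤ k) :
    (p + q).natDegree ≤ k := (natDegree_add_le p q).trans (max_le hp hq)

theorem dsub {p q : F[X]} {k : ℕ} (hp : p.natDegree ≤ k) (hq : q.natDegree ≤ k) :
    (p - q).natDegree ≤ k := (natDegree_sub_le p q).trans (max_le hp hq)

theorem dneg {p : F[X]} {k : ℕ} (hp : p.natDegree ≤ k) : (-p).natDegree ≤ k := by
  rwa [natDegree_neg]

theorem dmul {p q : F[X]} {a b k : ℕ} (hp : p.natDegree ≤ a) (hq : q.natDegree ≤ b)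
    (h : a + b ≤ k) : (p * q).natDegree ≤ k :=
  (natDegree_mul_le_of_le hp hq).trans h

theorem dpow {p : F[X]} {a n k : ℕ} (hp : p.natDegree ≤ a) (h : n * a ≤ k) :
    (p ^ n).natDegree ≤ k :=
  (natDegree_pow_le_of_le n hp).trans h

theorem dder {p : F[X]} {k : ℕ} (hp : p.natDegree ≤ k) : (derivative p).natDegree ≤ k :=
  (natDegree_derivative_le p).trans (by omega)

/-- All entries have degree at most `k`. -/
def DB (k : ℕ) (M : Matrix (Fin 3) (Fin 3) F[X]) : Prop := ∀ i j, (M i j).natDegree ≤ k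

theorem DB_mul {a b k : ℕ} {M N : Matrix (Fin 3) (Fin 3) F[X]} (hM : DB a M) (hN : DB b N)
    (h : a + b ≤ k) : DB k (M * N) := by
  intro i j
  rw [Matrix.mul_apply, Fin.sum_univ_three]
  exact dadd (dadd (dmul (hM _ _) (hN _ _) h) (dmul (hM _ _) (hN _ _) h))
    (dmul (hM _ _) (hN _ _) h)

theorem DB_smul {a b k : ℕ} {p : F[X]} {M : Matrix (Fin 3) (Fin 3) F[X]} (hp : p.natDegree ≤ a)
    (hM : DB b M) (h : a + b ≤ k) : DB k (p • M) := by
  intro i j
  rw [Matrix.smul_apply, smul_eq_mul]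
  exact dmul hp (hM _ _) h

theorem DB_one (k : ℕ) : DB k (1 : Matrix (Fin 3) (Fin 3) F[X]) := by
  intro i j
  rw [Matrix.one_apply]
  split_ifs <;> simp

theorem DB_mono {a b : ℕ} {M : Matrix (Fin 3) (Fin 3) F[X]} (hM : DB a M) (h : a ≤ b) :
    DB b M := fun i j => (hM i j).trans h

theorem DB_add {k : ℕ} {M N : Matrix (Fin 3) (Fin 3) F[X]} (hM : DB k M) (hN : DB k N) :
    DB k (M + N) := fun i j => dadd (hM i j) (hN i j)

theorem DB_sub {k : ℕ} {M N : Matrix (Fin 3) (Fin 3) F[X]} (hM : DB k M) (hN : DB k N) :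
    DB k (M - N) := fun i j => dsub (hM i j) (hN i j)

theorem DB_pow {a : ℕ} {M : Matrix (Fin 3) (Fin 3) F[X]} (hM : DB a M) (n : ℕ) :
    DB (n * a) (M ^ n) := by
  induction n with
  | zero => rw [pow_zero]; exact DB_one _
  | succ n ih =>
    rw [pow_succ]
    exact DB_mul ih hM (by rw [Nat.succ_mul])

theorem DB_det {a : ℕ} {M : Matrix (Fin 3) (Fin 3) F[X]} (hM : DB a M) :
    M.det.natDegree ≤ 3 * a := by
  have h3 : ∀ i j k l m n : Fin 3, (M i j * M k l * M m n).natDegree ≤ 3 * a := fun i j k l m n =>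
    dmul (dmul (hM i j) (hM k l) le_rfl) (hM m n) (by omega)
  rw [Matrix.det_fin_three]
  exact dsub (dadd (dadd (dsub (dsub (h3 _ _ _ _ _ _) (h3 _ _ _ _ _ _)) (h3 _ _ _ _ _ _))
    (h3 _ _ _ _ _ _)) (h3 _ _ _ _ _ _)) (h3 _ _ _ _ _ _)

theorem DB_CC {k : ℕ} {m0 m1 m2 : F[X]} (h0 : m0.natDegree ≤ k) (h1 : m1.natDegree ≤ k)
    (h2 : m2.natDegree ≤ k) : DB k (CC m0 m1 m2) := by
  intro i j
  fin_cases i <;> fin_cases j <;> simp [CC, h0, h1, h2]

end Degrees

end TB7

open TB7 in
theorem tb7_thm : TB7Stmt := by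
  intro F _ h2 n m al be ga de et hal hbe hga hde het hal0 hnu
  have hnu' : al ^ 2 * et + be * (al * de - be ^ 2 - al * ga) ≠ 0 := by
    simpa [nuB] using hnu
  set v : F[X] := be ^ 2 - al * de with hv
  set a : F[X] := -(2 * ga + de) with ha
  set b : F[X] := 2 * ga * de - 2 * et * be + ga ^ 2 with hb
  set c : F[X] := -al * et ^ 2 + 2 * be * et * ga - de * ga ^ 2 with hc
  have h2' : (2 : F[X]) ≠ 0 := by
    intro h
    apply h2
    have := congrArg (eval 0) h
    simpa using this
  have hY : (YY al v a b c).det ≠ 0 := by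
    have hd := det_id al be ga de et
    rw [← hv, ← ha, ← hb, ← hc] at hd
    rw [YY, Matrix.det_smul, Matrix.det_mul, hd]
    have h4 : (-4 : F[X]) ≠ 0 := by
      have : (-4 : F[X]) = -(2 * 2) := by norm_num
      rw [this]
      exact neg_ne_zero.mpr (mul_ne_zero h2' h2')
    exact mul_ne_zero (pow_ne_zero _ (pow_ne_zero _ (mul_ne_zero h2' (pow_ne_zero _ hal0))))
      (mul_ne_zero (mul_ne_zero h4 (pow_ne_zero _ hnu')) (mul_ne_zero h4 (pow_ne_zero _ hnu')))
  have hr := roots3 (XX al v a b c (derivative al) (derivative v) (derivative a) (derivative b)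
    (derivative c)) (YY al v a b c) hY
  refine ⟨fun ζ => (XX al v a b c (derivative al) (derivative v) (derivative a) (derivative b)
    (derivative c) - ζ • YY al v a b c).det, hr.1, hr.2, ?_, ?_⟩
  · intro ζ hζ
    set D : ℕ := 2 * n + 2 * m with hD
    have n2 : ∀ k : ℕ, (2 : F[X]).natDegree ≤ k := fun k => by
      rw [natDegree_ofNat]; exact Nat.zero_le _
    have n3 : ∀ k : ℕ, (3 : F[X]).natDegree ≤ k := fun k => by
      rw [natDegree_ofNat]; exact Nat.zero_le _
    have n4 : ∀ k : ℕ, (4 : F[X]).natDegree ≤ k := fun k => by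
      rw [natDegree_ofNat]; exact Nat.zero_le _
    have dv : v.natDegree ≤ 2 * D := dsub (dpow hbe le_rfl) (dmul hal hde (by omega))
    have da : a.natDegree ≤ D := dneg (dadd (dmul (n2 0) hga (by omega)) hde)
    have db : b.natDegree ≤ 2 * D :=
      dadd (dsub (dmul (dmul (n2 0) hga le_rfl) hde (by omega))
        (dmul (dmul (n2 0) het le_rfl) hbe (by omega))) (dpow hga le_rfl)
    have dc : c.natDegree ≤ 3 * D :=
      dsub (dadd (dmul (dneg hal) (dpow het le_rfl) (by omega))
        (dmul (dmul (dmul (n2 0) hbe le_rfl) het le_rfl) hga (by omega)))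
        (dmul hde (dpow hga le_rfl) (by omega))
    have hC : DB (6 * D) (CC (4 * al ^ 2 * (b * v - al * c)) (4 * al * a * v)
        (3 * v + al * a)) := by
      refine DB_CC ?_ ?_ ?_
      · exact dmul (dmul (n4 0) (dpow hal le_rfl) le_rfl)
          (dsub (dmul db dv le_rfl) (dmul hal dc (by omega))) (by omega)
      · exact dmul (dmul (dmul (n4 0) hal le_rfl) da le_rfl) dv (by omega)
      · exact dadd (dmul (n3 0) dv (by omega)) (dmul hal da (by omega))
    have h2al : ∀ j, ((2 * al) ^ j).natDegree ≤ j * D := fun j =>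
      dpow (dmul (n2 0) hal (by omega)) le_rfl
    have hal' := dder hal
    have dv' := dder dv
    have da' := dder da
    have db' := dder db
    have dc' := dder dc
    have he : ∀ j : Fin 5, ((![(2 * al) ^ 4 * (derivative c * v - c * derivative v),
        (2 * al) ^ 3 * (derivative b * v + derivative c * al - b * derivative v -
          c * derivative al),
        (2 * al) ^ 2 * (derivative a * v + derivative b * al - a * derivative v -
          b * derivative al), (2 * al) * (derivative a * al - derivative v - a * derivative al),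
        -derivative al] : Fin 5 → F[X]) j).natDegree ≤ 9 * D := by
      intro j
      fin_cases j
      · exact dmul (h2al 4) (dsub (dmul dc' dv le_rfl) (dmul dc dv' le_rfl)) (by omega)
      · exact dmul (h2al 3) (dsub (dsub (dadd (dmul db' dv (k := 6 * D) (by omega))
          (dmul dc' hal (by omega))) (dmul db dv' (by omega))) (dmul dc hal' (by omega)))
          (by omega)
      · exact dmul (h2al 2) (dsub (dsub (dadd (dmul da' dv (k := 6 * D) (by omega))
          (dmul db' hal (by omega))) (dmul da dv' (by omega))) (dmul db hal' (by omega)))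
          (by omega)
      · exact dmul (dmul (n2 0) hal le_rfl) (dsub (dsub (dmul da' hal (k := 6 * D) (by omega))
          (dv'.trans (by omega))) (dmul da hal' (by omega))) (by omega)
      · exact (dneg hal').trans (by omega)
    have hX : DB (33 * D) (XX al v a b c (derivative al) (derivative v) (derivative a)
        (derivative b) (derivative c)) := by
      intro i j
      rw [XX, QQ, Matrix.sum_apply]
      refine natDegree_sum_le_of_forall_le _ _ fun l _ => ?_
      exact DB_smul (he l) (DB_pow hC (l : ℕ)) (k := 33 * D) (by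
        have : (l : ℕ) ≤ 4 := by omega
        nlinarith) i j
    have h1 : DB (6 * D) (CC (4 * al ^ 2 * (b * v - al * c)) (4 * al * a * v)
        (3 * v + al * a) + (2 * v) • (1 : Matrix (Fin 3) (Fin 3) F[X])) :=
      DB_add hC (DB_smul (dmul (n2 0) dv le_rfl) (DB_one 0) (by omega))
    have hYd : DB (16 * D) (YY al v a b c) := by
      refine DB_smul (dpow (a := 2 * D) (dmul (n2 0) (dpow hal le_rfl) (by omega)) le_rfl)
        (DB_mul h1 h1 le_rfl) (by omega)
    have hfin : DB (33 * D) (XX al v a b c (derivative al) (derivative v) (derivative a)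
        (derivative b) (derivative c) - ζ • YY al v a b c) :=
      DB_sub hX (DB_smul hζ hYd (by omega))
    have := DB_det hfin
    refine this.trans ?_
    omega
  · rintro P z hP hPal ⟨s, hs1, hs2, hs3⟩
    have hmk : ∀ x : F[X], P ∣ x → AdjoinRoot.mk P x = 0 := fun x hx =>
      AdjoinRoot.mk_eq_zero.mpr hx
    rw [← AdjoinRoot.mk_eq_zero]
    have eia : ia !![al, be, ga; be, de, et; ga, et, z] = a := by
      simp [ia, ha]
    have eib : ib !![al, be, ga; be, de, et; ga, et, z] = b - z * al := by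
      simp [ib, hb]
    have eic : ic !![al, be, ga; be, de, et; ga, et, z] = c - z * v := by
      rw [ic, Matrix.det_fin_three]
      simp [hc, hv]
      ring
    rw [eia, eib, eic] at hs1 hs3
    rw [eia, eib] at hs2
    refine key_map (AdjoinRoot.mk P) al v a b c _ _ _ _ _ z _ s (hmk _ hs1) (hmk _ hs2) ?_
    apply hmk
    have e1 : derivative (b - z * al) = derivative b - derivative z * al - z * derivative al := by
      rw [derivative_sub, derivative_mul]
      ring
    have e2 : derivative (c - z * v) = derivative c - derivative z * v - z * derivative v := by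
      rw [derivative_sub, derivative_mul]
      ring
    rw [e1, e2] at hs3
    exact hs3

end Pool.AVS
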